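import Pool.Agent.H26.BTree

open Set Cardinal Filter Topology

namespace Pool.Agent.Results.MP_4cef1b_gt.Exists
open Pool.Agent.H26.Stat Pool.Agent.H26.BTree

/-- d-separable: a dense union of countably many discrete subsets. -/
def dSep (X : Type) [TopologicalSpace X] : Prop :=
  ∃ E : ℕ → Set X, (∀ n, IsDiscrete (E n)) ∧ Dense (⋃ n, E n)

/-- D-separable. -/
def DSep (X : Type) [TopologicalSpace X] : Prop :=
  ∀ D : ℕ → Set X, (∀ n, Dense (D n)) →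
    ∃ F : ℕ → Set X, (∀ n, F n ⊆ D n ∧ IsDiscrete (F n)) ∧ Dense (⋃ n, F n)

variable {K : Type} [LinearOrder K] {a : K → Lab}

def conf (p q : Cond a) (β : K) : Prop :=
  ∃ ξ ∈ p.s, ∃ η ∈ q.s, ξ ≤ β ∧ η ≤ β ∧ Clash (a ξ) (a η)

def Alt (p q : Cond a) : ℕ → K → Prop
  | 0, β => IsLeast {β | conf p q β} β
  | n + 1, z => ∃ x y, Alt p q n x ∧ IsLeast {t | t ∈ p.s ∧ x < t} y ∧
      IsLeast {t | t ∈ q.s ∧ y < t} z

def A (n : ℕ) (p q : Cond a) : Prop :=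
  ∃ x, Alt p q n x ∧ IsLeast {t | t ∈ p.s ∧ x < t} p.m ∧ IsLeast {t | t ∈ q.s ∧ p.m < t} q.m

theorem least_ext {p r : Cond a} (h : Ext p r) {x y : K} (hy : IsLeast {t | t ∈ p.s ∧ x < t} y) :
    IsLeast {t | t ∈ r.s ∧ x < t} y :=
  ⟨⟨h.1 hy.1.1, hy.1.2⟩, fun t ht => not_lt.1 fun h' =>
    h'.not_ge (hy.2 ⟨h.2 t ht.1 (h'.le.trans (p.le _ hy.1.1)), ht.2⟩)⟩

theorem alt_ext {p q r s : Cond a} (h : Ext p r) (h' : Ext q s) :
    ∀ n x, Alt p q n x → x ≤ p.m → x ≤ q.m → Alt r s n x := by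
  intro n
  induction n with
  | zero =>
    rintro x ⟨⟨ξ, hξ, η, hη, h1⟩, h2⟩ hp hq
    refine ⟨⟨ξ, h.1 hξ, η, h'.1 hη, h1⟩, fun β ⟨ξ, hξ, η, hη, h3, h4, h5⟩ => not_lt.1 fun hlt => ?_⟩
    exact hlt.not_ge (h2 ⟨ξ, h.2 _ hξ (h3.trans (hlt.le.trans hp)), η,
      h'.2 _ hη (h4.trans (hlt.le.trans hq)), h3, h4, h5⟩)
  | succ n ih =>
    rintro z ⟨x, y, h1, h2, h3⟩ - hq
    exact ⟨x, y, ih x h1 (h2.1.2.le.trans (p.le _ h2.1.1)) ((h2.1.2.trans h3.1.2).le.trans hq),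
      least_ext h h2, least_ext h' h3⟩

theorem alt_unique {p q : Cond a} : ∀ n x x', Alt p q n x → Alt p q n x' → x = x' := by
  intro n
  induction n with
  | zero => exact fun x x' h h' => h.unique h'
  | succ n ih =>
    rintro z z' ⟨x, y, h1, h2, h3⟩ ⟨x', y', h1', h2', h3'⟩
    obtain rfl := ih x x' h1 h1'
    obtain rfl := h2.unique h2'
    exact h3.unique h3'

theorem antichain {n : ℕ} {p q p' q' r s : Cond a} (h : A n p q) (h' : A n p' q')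
    (h1 : Ext p r) (h2 : Ext q s) (h1' : Ext p' r) (h2' : Ext q' s) : p = p' ∧ q = q' := by
  obtain ⟨x, hx, hp, hq⟩ := h
  obtain ⟨x', hx', hp', hq'⟩ := h'
  obtain rfl := alt_unique n x x'
    (alt_ext h1 h2 n x hx hp.1.2.le (hp.1.2.trans hq.1.2).le)
    (alt_ext h1' h2' n x' hx' hp'.1.2.le (hp'.1.2.trans hq'.1.2).le)
  have e1 := (least_ext h1 hp).unique (least_ext h1' hp')
  obtain rfl := eq_of_m h1 h1' e1
  exact ⟨rfl, eq_of_m h2 h2' ((least_ext h2 hq).unique (least_ext h2' hq'))⟩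

variable [Big K]

theorem exists_least {S : Set K} (h : S.Nonempty) : ∃ x, IsLeast S x :=
  ⟨wellFounded_lt.min S h, wellFounded_lt.min_mem S h,
    fun _ hy => not_lt.1 (wellFounded_lt.not_lt_min S hy)⟩

theorem not_all_alt (p q : Cond a) : ¬ ∀ n, ∃ x, Alt p q n x := by
  intro h
  choose x hx using h
  have : ∀ n, ∃ y ∈ p.s, x n < y ∧ y < x (n + 1) ∧ x (n + 1) ∈ q.s := fun n => by
    obtain ⟨x', y, h1, h2, h3⟩ := hx (n + 1)
    obtain rfl := alt_unique n _ _ (hx n) h1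
    exact ⟨y, h2.1.1, h2.1.2, h3.1.2, h3.1.1⟩
  choose y hy h1 h2 h3 using this
  obtain ⟨δ, hδ⟩ := exists_lub y
  have hp : δ ∈ p.s := p.cl y δ hy (strictMono_nat_of_lt_succ fun n => (h2 n).trans (h1 _)) hδ
  have hq : δ ∈ q.s := q.cl (fun n => x (n + 1)) δ h3
    (strictMono_nat_of_lt_succ fun n => (h1 _).trans (h2 _)) ⟨by
      rintro _ ⟨n, rfl⟩
      exact (h1 _).le.trans (hδ.1 (mem_range_self _)), fun b hb => hδ.2 (by
      rintro _ ⟨n, rfl⟩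
      exact (h2 n).le.trans (hb (mem_range_self n)))⟩
  obtain ⟨ξ, hξ, η, hη, h4, h5, z, h6, h7⟩ := (hx 0).1
  have h0 : x 0 ≤ δ := (h1 0).le.trans (hδ.1 (mem_range_self _))
  exact (a δ).2.2 z (p.mono _ hξ _ hp (h4.trans h0) h6) (q.mono _ hη _ hq (h5.trans h0) h7)

variable (ha : ∀ l, Pos {δ | a δ = l})
include ha

theorem A_dense (p q : Cond a) : ∃ n p' q', Ext p p' ∧ Ext q q' ∧ A n p' q' := by
  obtain ⟨M, M', hM, hM', hc⟩ := exists_clash (a p.m) (a q.m)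
  obtain ⟨p1, e1, -, -, l1, -⟩ := exists_snoc ha p M hM p.m
  obtain ⟨q1, f1, g1, -, l1', -⟩ := exists_snoc ha q M' hM' p1.m
  obtain ⟨p2, e2, g2, -, -, s2⟩ := exists_snoc ha p1 _ subset_rfl q1.m
  obtain ⟨q2, f2, g3, -, -, s3⟩ := exists_snoc ha q1 _ subset_rfl p2.m
  by_contra hcon
  push Not at hcon
  have hA := fun n => hcon n p2 q2 (e1.trans e2) (f1.trans f2)
  refine not_all_alt p2 q2 fun n => ?_
  suffices h : ∃ x, Alt p2 q2 n x ∧ x ≤ q1.m from h.imp fun _ h => h.1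
  induction n with
  | zero =>
    have h0 : conf p2 q2 q1.m :=
      ⟨p1.m, e2.1 p1.mem, q1.m, f2.1 q1.mem, g1.le, le_rfl, by rw [l1, l1']; exact hc⟩
    obtain ⟨x, hx⟩ := exists_least (S := {β | conf p2 q2 β}) ⟨_, h0⟩
    exact ⟨x, hx, hx.2 h0⟩
  | succ n ih =>
    obtain ⟨x, hx, hle⟩ := ih
    obtain ⟨y, hy⟩ := exists_least (S := {t | t ∈ p2.s ∧ x < t}) ⟨p2.m, p2.mem, hle.trans_lt g2⟩
    obtain ⟨z, hz⟩ := exists_least (S := {t | t ∈ q2.s ∧ y < t})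
      ⟨q2.m, q2.mem, (p2.le _ hy.1.1).trans_lt g3⟩
    have hy1 : y ∈ insert p2.m p1.s := s2 ▸ hy.1.1
    rcases hy1 with rfl | hy1
    · have hz1 : z ∈ insert q2.m q1.s := s3 ▸ hz.1.1
      rcases hz1 with rfl | hz1
      · exact (hA n ⟨x, hx, hy, hz⟩).elim
      · exact (lt_asymm g2 (hz.1.2.trans_le (q1.le _ hz1))).elim
    · exact ⟨z, ⟨x, y, hx, hy, hz⟩, hz.2 ⟨f2.1 q1.mem, (p1.le _ hy1).trans_lt g1⟩⟩

omit ha [Big K]

open Classical in
noncomputable def emb (t : Cond a) : Cond a → Bool := fun p => decide (Ext p t)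

theorem emb_inj : Function.Injective (emb (a := a)) := by
  intro s t h
  have h1 : Ext s t := by simpa [emb, Ext.refl] using (congrFun h s).symm
  have h2 : Ext t s := by simpa [emb, Ext.refl] using congrFun h t
  exact Cond.eq_of_s (h1.1.antisymm h2.1)

noncomputable instance top : TopologicalSpace (Cond a) := TopologicalSpace.induced emb inferInstance

theorem cone_open (p : Cond a) : IsOpen {t | Ext p t} := by
  have : {t | Ext p t} = emb ⁻¹' ((fun f : Cond a → Bool => f p) ⁻¹' {true}) := by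
    ext t; simp [emb]
  rw [this]
  exact ((isOpen_discrete _).preimage (continuous_apply p)).preimage continuous_induced_dom

include ha

theorem pibase {t : Cond a} {U : Set (Cond a)} (hU : U ∈ 𝓝 t) :
    ∃ s, Ext t s ∧ t.m < s.m ∧ ∀ u, Ext s u → u ∈ U := by
  rw [nhds_induced, mem_comap] at hU
  obtain ⟨V, hV, hU⟩ := hU
  rw [nhds_pi, Filter.mem_pi'] at hV
  obtain ⟨w, W, hW, hst⟩ := hV
  obtain ⟨γ, hγ⟩ : ∃ γ, ∀ p ∈ w, p.m ≤ γ := by
    haveI : Nonempty K := ⟨t.m⟩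
    obtain ⟨γ, hγ⟩ := (w.finite_toSet.image fun p => p.m).bddAbove
    exact ⟨γ, fun p hp => hγ (mem_image_of_mem _ hp)⟩
  obtain ⟨s, h1, h2, h3, -, h4⟩ := exists_snoc ha t _ subset_rfl γ
  refine ⟨s, h1, h3, fun u hu => hU (hst fun p hp => ?_)⟩
  have : emb u p = emb t p := by
    simp only [emb, decide_eq_decide]
    refine ⟨fun h => ?_, fun h => h.trans (h1.trans hu)⟩
    have hlt := (hγ p hp).trans_lt h2
    have : p.m ∈ insert s.m t.s := h4 ▸ hu.2 _ (h.1 p.mem) hlt.le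
    exact ext_of_le h (h1.trans hu) (t.le _ (this.resolve_left hlt.ne))
  rw [this]
  exact mem_of_mem_nhds (hW p)

theorem not_dSep [Big K] : ¬ dSep (Cond a) := by
  rintro ⟨E, hE, hd⟩
  obtain ⟨p0⟩ := nonempty ha
  obtain ⟨q, -, hq⟩ := baire ha (fun n => {p | ∀ u, Ext p u → u ∉ E n}) (fun n p => by
    by_cases h : ∃ t, Ext p t ∧ t ∈ E n
    · obtain ⟨t, ht, htE⟩ := h
      have := isDiscrete_iff_nhdsNE.1 (hE n) t htE
      rw [inf_principal_eq_bot, mem_nhdsWithin_iff_exists_mem_nhds_inter] at this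
      obtain ⟨U, hU, h⟩ := this
      obtain ⟨s, h1, h2, h3⟩ := pibase ha hU
      refine ⟨s, fun u hu => h ⟨h3 u hu, ?_⟩, ht.trans h1⟩
      rintro rfl
      exact h2.not_ge hu.m_le
    · exact ⟨p, fun u hu hE => h ⟨u, hu, hE⟩, Ext.refl p⟩)
    (fun n q hq r hr u hu => hq u (hr.trans hu)) p0
  obtain ⟨u, hu, hu'⟩ := hd.inter_open_nonempty _ (cone_open q) ⟨q, Ext.refl q⟩
  obtain ⟨n, hn⟩ := mem_iUnion.1 hu'
  exact hq n u hu hn

theorem dsep_sq [Big K] : DSep (Cond a × Cond a) := by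
  intro D hD
  have : ∀ n (p q : Cond a), ∃ z ∈ D n, Ext p z.1 ∧ Ext q z.2 := fun n p q => by
    obtain ⟨z, hz, hz'⟩ := (hD n).inter_open_nonempty _ ((cone_open p).prod (cone_open q))
      ⟨(p, q), Ext.refl p, Ext.refl q⟩
    exact ⟨z, hz', hz⟩
  choose f hf h1 h2 using this
  refine ⟨fun n => {z | ∃ p q, A n p q ∧ z = f n p q}, fun n => ⟨?_, ?_⟩, ?_⟩
  · rintro _ ⟨p, q, -, rfl⟩; exact hf n p q
  · rw [isDiscrete_iff_nhdsNE]
    rintro _ ⟨p, q, h, rfl⟩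
    rw [inf_principal_eq_bot, mem_nhdsWithin_iff_exists_mem_nhds_inter]
    refine ⟨_, ((cone_open p).prod (cone_open q)).mem_nhds ⟨h1 n p q, h2 n p q⟩, ?_⟩
    rintro _ ⟨⟨h3, h4⟩, hne⟩ ⟨p', q', h', rfl⟩
    obtain ⟨rfl, rfl⟩ := antichain h h' h3 h4 (h1 n p' q') (h2 n p' q')
    exact hne rfl
  · rintro ⟨x, y⟩
    rw [mem_closure_iff_nhds]
    intro W hW
    obtain ⟨U, hU, V, hV, hUV⟩ := mem_nhds_prod_iff.1 hW
    obtain ⟨p, -, -, hp⟩ := pibase ha hU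
    obtain ⟨q, -, -, hq⟩ := pibase ha hV
    obtain ⟨n, p', q', e1, e2, hA⟩ := A_dense ha p q
    exact ⟨f n p' q', hUV ⟨hp _ (e1.trans (h1 _ _ _)), hq _ (e2.trans (h2 _ _ _))⟩,
      mem_iUnion.2 ⟨n, p', q', hA, rfl⟩⟩

omit ha

theorem result : ∃ (X : Type) (_ : TopologicalSpace X),
    T35Space X ∧ ¬ dSep X ∧ ¬ DSep X ∧ DSep (X × X) := by
  obtain ⟨K, _, _⟩ := exists_big
  obtain ⟨a, ha⟩ := split (K := K) Lab mk_Lab
  refine ⟨Cond a, top, (IsEmbedding.mk ⟨rfl⟩ emb_inj).t35Space, not_dSep ha, fun h => ?_,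
    dsep_sq ha⟩
  obtain ⟨F, h1, h2⟩ := h (fun _ => univ) fun _ => dense_univ
  exact not_dSep ha ⟨F, fun n => (h1 n).2, h2⟩

end Pool.Agent.Results.MP_4cef1b_gt.Exists
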